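import Pool.Agent.Helper96.SE.St

/-!
# Project SE (MP_6090f9_nt), module O1: homomorphisms of the ring of integers are roots modulo `v`
-/

set_option autoImplicit false

namespace Pool.Agent.Helper93.SE

open Pool.Agent.Helper96.SE Pool.Agent.Helper96.BC Pool.Agent.Helper95.TT Pool.Agent.Helper24.TF
  Pool.Agent.Helper95.WS
open NumberField IsDedekindDomain Polynomial Filter Topology
open scoped Classical

noncomputable section

section main

variable {k L : Type} [Field k] [NumberField k] [Field L] [NumberField L] [Algebra k L]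

/-- common denominator -/
private theorem den_O1 (θ : 𝓞 L) (hgen : ∀ x : L, ∃ g : k[X], aeval (θ : L) g = x) :
    ∃ d : 𝓞 k, d ≠ 0 ∧ ∀ x : 𝓞 L, ∃ g : (𝓞 k)[X],
      aeval θ g = algebraMap (𝓞 k) (𝓞 L) d * x := by
  have h1 : ∀ x : 𝓞 L, ∃ d : 𝓞 k, d ≠ 0 ∧ ∃ g : (𝓞 k)[X],
      aeval θ g = algebraMap (𝓞 k) (𝓞 L) d * x := by
    intro x
    obtain ⟨g0, hg0⟩ := hgen (x : L)
    obtain ⟨b, hb, hg⟩ := IsLocalization.integerNormalization_spec (nonZeroDivisors (𝓞 k)) g0
    refine ⟨b, nonZeroDivisors.ne_zero hb, IsLocalization.integerNormalization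
      (nonZeroDivisors (𝓞 k)) g0, ?_⟩
    apply RingOfIntegers.ext
    have hg1 : Polynomial.map (algebraMap (𝓞 k) k)
        (IsLocalization.integerNormalization (nonZeroDivisors (𝓞 k)) g0) =
        C (algebraMap (𝓞 k) k b) * g0 := by
      rw [hg]
      ext n
      rw [coeff_C_mul]
      erw [coeff_smul]
      exact Algebra.smul_def _ _
    have h2 := congrArg (aeval (θ : L)) hg1
    rw [aeval_map_algebraMap] at h2
    have h3 : aeval (θ : L) (IsLocalization.integerNormalization (nonZeroDivisors (𝓞 k)) g0) =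
        algebraMap (𝓞 L) L (aeval θ
          (IsLocalization.integerNormalization (nonZeroDivisors (𝓞 k)) g0)) :=
      aeval_algebraMap_apply L θ _
    rw [h3] at h2
    have h4 : aeval (θ : L) (C (algebraMap (𝓞 k) k b) * g0) = algebraMap (𝓞 k) L b * (x : L) := by
      rw [← hg0, map_mul, aeval_C, ← IsScalarTower.algebraMap_apply]
    rw [h4] at h2
    change algebraMap (𝓞 L) L _ = algebraMap (𝓞 L) L (algebraMap (𝓞 k) (𝓞 L) b * x)
    rw [h2, map_mul, ← IsScalarTower.algebraMap_apply]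
  choose D hD G hG using h1
  obtain ⟨S, hS⟩ := (Module.Finite.fg_top : (⊤ : Submodule (𝓞 k) (𝓞 L)).FG)
  refine ⟨∏ x ∈ S, D x, Finset.prod_ne_zero_iff.mpr (fun x _ => hD x), ?_⟩
  intro x
  have hx : x ∈ Submodule.span (𝓞 k) (S : Set (𝓞 L)) := by rw [hS]; trivial
  induction hx using Submodule.span_induction with
  | mem x hx =>
    have hx' : x ∈ S := hx
    refine ⟨C (∏ y ∈ S.erase x, D y) * G x, ?_⟩
    rw [map_mul, aeval_C, hG, ← Finset.mul_prod_erase S D hx', map_mul]
    ring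
  | zero => exact ⟨0, by simp⟩
  | add x y _ _ hx hy =>
    obtain ⟨g, hg⟩ := hx
    obtain ⟨g', hg'⟩ := hy
    exact ⟨g + g', by rw [map_add, hg, hg', mul_add]⟩
  | smul a x _ hx =>
    obtain ⟨g, hg⟩ := hx
    refine ⟨C a * g, ?_⟩
    rw [map_mul, aeval_C, hg, Algebra.smul_def]
    ring

variable {P : (𝓞 k)[X]} {θ : 𝓞 L} (hP : P.Monic)
  (hirr : Irreducible (P.map (algebraMap (𝓞 k) k))) (hθ : aeval θ P = 0)
include hP hirr hθ

private theorem dvd_O1 (g : (𝓞 k)[X]) (hg : aeval θ g = 0) : P ∣ g := by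
  have h1 : aeval (θ : L) (P.map (algebraMap (𝓞 k) k)) = 0 := by
    rw [aeval_map_algebraMap]
    have : aeval (θ : L) P = algebraMap (𝓞 L) L (aeval θ P) := aeval_algebraMap_apply L θ _
    rw [this, hθ, map_zero]
  have h2 : aeval (θ : L) (g.map (algebraMap (𝓞 k) k)) = 0 := by
    rw [aeval_map_algebraMap]
    have : aeval (θ : L) g = algebraMap (𝓞 L) L (aeval θ g) := aeval_algebraMap_apply L θ _
    rw [this, hg, map_zero]
  have h3 := minpoly.eq_of_irreducible_of_monic hirr h1 (hP.map _)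
  have h4 := minpoly.dvd k (θ : L) h2
  rw [← h3] at h4
  exact (Polynomial.map_dvd_map (algebraMap (𝓞 k) k)
    (FaithfulSMul.algebraMap_injective (𝓞 k) k) hP).1 h4

/-- relations modulo `v` -/
private theorem rel_O1 (v : Pr k) (b : 𝓞 k) (hb : Ideal.Quotient.mk v.asIdeal (P.eval b) = 0)
    (g g' : (𝓞 k)[X]) (hg : aeval θ g = aeval θ g') :
    Ideal.Quotient.mk v.asIdeal (g.eval b) = Ideal.Quotient.mk v.asIdeal (g'.eval b) := by
  obtain ⟨u, hu⟩ := dvd_O1 hP hirr hθ (g - g') (by rw [map_sub, hg, sub_self])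
  have h1 : (g - g').eval b = P.eval b * u.eval b := by rw [hu, eval_mul]
  rw [eval_sub] at h1
  have h2 : g.eval b = P.eval b * u.eval b + g'.eval b := by rw [← h1]; ring
  rw [h2, map_add, map_mul, hb, zero_mul, zero_add]

variable {d : 𝓞 k} (hd : ∀ x : 𝓞 L, ∃ g : (𝓞 k)[X],
      aeval θ g = algebraMap (𝓞 k) (𝓞 L) d * x)
include hd

/-- the homomorphism of a root -/
private theorem hom_O1 (v : Pr k) (hdv : d ∉ v.asIdeal) (b : 𝓞 k)
    (hb : Ideal.Quotient.mk v.asIdeal (P.eval b) = 0) :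
    ∃ φ : 𝓞 L →ₐ[𝓞 k] (𝓞 k ⧸ v.asIdeal), φ θ = Ideal.Quotient.mk v.asIdeal b := by
  have rel := rel_O1 hP hirr hθ v b hb
  have hmax : v.asIdeal.IsMaximal := v.isMaximal
  obtain ⟨c, hc⟩ : ∃ c : 𝓞 k, Ideal.Quotient.mk v.asIdeal c * Ideal.Quotient.mk v.asIdeal d = 1 := by
    obtain ⟨y, i, hi, h⟩ := Ideal.IsMaximal.exists_inv hmax hdv
    refine ⟨y, ?_⟩
    rw [← map_mul, ← map_one (Ideal.Quotient.mk v.asIdeal), ← h, map_add,
      Ideal.Quotient.eq_zero_iff_mem.2 hi, add_zero]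
  choose G hG using hd
  set μ := Ideal.Quotient.mk v.asIdeal with hμ
  let φ : 𝓞 L →ₐ[𝓞 k] (𝓞 k ⧸ v.asIdeal) :=
    { toFun := fun x => μ c * μ ((G x).eval b)
      map_one' := by
        have h1 := rel (G 1) (C d) (by rw [hG, aeval_C, mul_one])
        rw [h1, eval_C, hc]
      map_mul' := by
        intro x y
        have h1 := rel (C d * G (x * y)) (G x * G y) (by
          rw [map_mul, map_mul, aeval_C, hG, hG, hG]; ring)
        rw [eval_mul, eval_mul, eval_C, map_mul, map_mul] at h1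
        have h2 : μ c * μ ((G x).eval b) * (μ c * μ ((G y).eval b)) =
            μ c * (μ c * (μ ((G x).eval b) * μ ((G y).eval b))) := by ring
        rw [h2, ← h1]
        have h3 : μ c * (μ c * (μ d * μ ((G (x * y)).eval b))) =
          μ c * ((μ c * μ d) * μ ((G (x * y)).eval b)) := by ring
        rw [h3, hc, one_mul]
      map_zero' := by
        have h1 := rel (G 0) 0 (by rw [hG, mul_zero, map_zero])
        rw [h1, eval_zero, map_zero, mul_zero]
      map_add' := by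
        intro x y
        have h1 := rel (G (x + y)) (G x + G y) (by rw [map_add, hG, hG, hG]; ring)
        rw [h1, eval_add, map_add, mul_add]
      commutes' := by
        intro r
        have h1 := rel (G (algebraMap (𝓞 k) (𝓞 L) r)) (C (d * r)) (by
          rw [hG, aeval_C, map_mul])
        change μ c * μ ((G (algebraMap (𝓞 k) (𝓞 L) r)).eval b) = μ r
        rw [h1, eval_C, map_mul, ← mul_assoc, hc, one_mul] }
  refine ⟨φ, ?_⟩
  have h1 := rel (G θ) (C d * X) (by rw [hG, map_mul, aeval_C, aeval_X])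
  change μ c * μ ((G θ).eval b) = μ b
  rw [h1, eval_mul, eval_C, eval_X, map_mul, ← mul_assoc, hc, one_mul]

/-- the number of homomorphisms -/
private theorem count_O1 (v : Pr k) (hdv : d ∉ v.asIdeal) :
    Nat.card (𝓞 L →ₐ[𝓞 k] (𝓞 k ⧸ v.asIdeal)) = Rt P v := by
  have hev : ∀ (x : 𝓞 k ⧸ v.asIdeal) (g : (𝓞 k)[X]),
      (g.map (Ideal.Quotient.mk v.asIdeal)).eval x = aeval x g := by
    intro x g
    rw [eval_map]
    rfl
  let F : (𝓞 L →ₐ[𝓞 k] (𝓞 k ⧸ v.asIdeal)) →
      {x : Kv v // (P.map (Ideal.Quotient.mk v.asIdeal)).eval x = 0} :=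
    fun φ => ⟨φ θ, by rw [hev, aeval_algHom_apply, hθ, map_zero]⟩
  have hinj : Function.Injective F := by
    intro φ ψ h
    have h1 : φ θ = ψ θ := congrArg Subtype.val h
    apply AlgHom.ext
    intro x
    obtain ⟨g, hg⟩ := hd x
    have h2 : φ (algebraMap (𝓞 k) (𝓞 L) d * x) = ψ (algebraMap (𝓞 k) (𝓞 L) d * x) := by
      rw [← hg, ← aeval_algHom_apply, ← aeval_algHom_apply, h1]
    rw [map_mul, map_mul, AlgHom.commutes, AlgHom.commutes] at h2
    have hp : v.asIdeal.IsPrime := v.isPrime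
    have hne : algebraMap (𝓞 k) (𝓞 k ⧸ v.asIdeal) d ≠ 0 := by
      intro h0
      exact hdv (Ideal.Quotient.eq_zero_iff_mem.1 h0)
    exact mul_left_cancel₀ hne h2
  have hsurj : Function.Surjective F := by
    rintro ⟨a, ha⟩
    obtain ⟨b, rfl⟩ := Ideal.Quotient.mk_surjective a
    rw [eval_map, eval₂_hom] at ha
    obtain ⟨φ, hφ⟩ := hom_O1 hP hirr hθ hd v hdv b ha
    exact ⟨φ, Subtype.ext hφ⟩
  unfold Rt
  exact Nat.card_congr (Equiv.ofBijective F ⟨hinj, hsurj⟩)

end main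

theorem hO1 : StO1 := by
  intro k K _ _ _ _ _ θ h hm hirr hθ hadj
  have hgen : ∀ x : K, ∃ g : k[X], aeval (θ : K) g = x := by
    intro x
    have hx : x ∈ Algebra.adjoin k {(θ : K)} := by rw [hadj]; trivial
    rw [Algebra.adjoin_singleton_eq_range_aeval] at hx
    exact hx
  obtain ⟨d, hd0, hd⟩ := den_O1 θ hgen
  have h1 : (Ideal.span {d} : Ideal (𝓞 k)) ≠ 0 := by
    rw [Ne, Ideal.zero_eq_bot, Ideal.span_singleton_eq_bot]
    exact hd0
  refine (Ideal.finite_factors h1).subset ?_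
  intro v hv
  rw [Set.mem_ofPred_eq, Ideal.dvd_span_singleton]
  by_contra hdv
  exact hv (count_O1 hm hirr hθ hd v hdv)

end

end Pool.Agent.Helper93.SE
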